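import Pool.Agent.helper32.NN.Spec

set_option autoImplicit false
set_option linter.unusedVariables false

open Submodule

namespace Pool.Agent.NN

universe u v

/-- Powers of a supremum. -/
theorem REL_pow {K : Type u} {U : Type v} [Field K] [Ring U] [Algebra K U] {ι : Type v}
    (F : ι → Submodule K U) (n : ℕ) :
    (⨆ i, F i) ^ n ≤ ⨆ f : Fin n → ι, (List.ofFn fun i => F (f i)).prod := by
  induction n with
  | zero =>
    refine le_trans (le_of_eq ?_) (le_iSup _ (fun i : Fin 0 => i.elim0))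
    simp
  | succ n ih =>
    rw [pow_succ']
    refine le_trans (mul_le_mul' le_rfl ih) ?_
    rw [Submodule.iSup_mul]
    refine iSup_le fun i => ?_
    rw [Submodule.mul_iSup]
    refine iSup_le fun f => ?_
    refine le_trans (le_of_eq ?_) (le_iSup _ (Fin.cons i f : Fin (n + 1) → ι))
    rw [List.ofFn_succ, List.prod_cons]
    simp

theorem REL_full {K : Type u} {U : Type v} [Field K] [Ring U] [Algebra K U]
    {A J : Submodule K U} (hA : A * A = A) (hJ : IsId A J) :
    IsId A (A * J * A) ∧ (A * J * A) * A = A * J * A ∧ A * J * A ≤ J := by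
  obtain ⟨h1, h2, h3⟩ := hJ
  have hle : A * J * A ≤ J := le_trans (mul_le_mul' h2 le_rfl) h3
  have hl : A * (A * J * A) = A * J * A := by
    rw [mul_assoc A J A, ← mul_assoc A A (J * A), hA]
  have hr : (A * J * A) * A = A * J * A := by
    rw [mul_assoc (A * J) A A, hA]
  exact ⟨⟨le_trans hle h1, hl.le, hr.le⟩, hr, hle⟩

/-- Good subspaces. -/
def REL_good {K : Type u} {U : Type v} [Field K] [Ring U] [Algebra K U]
    (A T : Submodule K U) (l : U →ₗ[K] K) (B : Submodule K U) : Prop :=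
  B ≤ A ∧ B.FG ∧ B * B ≤ B ⊔ T ∧ ∀ b ∈ B, l b = 0

theorem REL (hSTP : STP_stmt.{u, v}) (hPER : PER_stmt.{u, v}) : REL_stmt.{u, v} := by
  intro K U _ _ _ A hC T hT hTA hsup
  have hA : A * A = A := hPER K U A hC
  let ι : Type v := {J : Submodule K U // IsId A J ∧ J * J ≤ T}
  let F : ι → Submodule K U := fun J => A * J.1 * A
  have hF : ⨆ i, F i = A := by
    have h0 := sSup_eq_iSup' {J : Submodule K U | IsId A J ∧ J * J ≤ T}
    have h1 : (⨆ J : ι, J.1) = A := h0.symm.trans hsup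
    have h2 : A * (⨆ J : ι, J.1) * A = ⨆ J : ι, A * J.1 * A := by
      rw [Submodule.mul_iSup, Submodule.iSup_mul]
    rw [h1, hA, hA] at h2
    exact h2.symm
  have hpow : ∀ n : ℕ, 1 ≤ n → A ^ n = A := by
    intro n hn
    induction n, hn using Nat.le_induction with
    | base => exact pow_one A
    | succ n hn ih => rw [pow_succ, ih, hA]
  have hnle : ¬ A ≤ T := fun h => hTA (le_antisymm hT.1 h)
  have hex : ∀ n : ℕ, 1 ≤ n → ∃ f : Fin n → ι, ¬ (List.ofFn fun i => F (f i)).prod ≤ T := by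
    intro n hn
    by_contra hcon
    push Not at hcon
    apply hnle
    rw [← hpow n hn]
    nth_rewrite 1 [← hF]
    exact le_trans (REL_pow F n) (iSup_le hcon)
  obtain ⟨x, hxA, hxT⟩ : ∃ x ∈ A, x ∉ T := by
    by_contra hcon
    push Not at hcon
    exact hnle hcon
  obtain ⟨l, hlx, hlT⟩ := Submodule.exists_le_ker_of_notMem hxT
  have hlT' : ∀ t ∈ T, l t = 0 := fun t ht => hlT ht
  have hstep : ∀ (n : ℕ) (B : Submodule K U), REL_good A T l B →
      ∃ B', REL_good A T l B' ∧ B ≤ B' ∧ ¬ B' ^ (n + 1) ≤ T := by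
    intro n B hB
    obtain ⟨f, hf⟩ := hex (n + 1) (by omega)
    obtain ⟨B', h1, h2, h3, h4, h5, h6⟩ := hSTP K U A hC T hT l hlT' (n + 1)
      (fun i => F (f i)) (by omega) (fun i => by
        obtain ⟨g1, g2, g3⟩ := REL_full hA (f i).2.1
        exact ⟨g1, g2, le_trans (mul_le_mul' g3 g3) (f i).2.2⟩) hf B hB.1 hB.2.1 hB.2.2.1
        hB.2.2.2
    exact ⟨B', ⟨h2, h3, h4, h5⟩, h1, h6⟩
  choose! g hg1 hg2 hg3 using hstep
  let b : ℕ → Submodule K U := fun n => Nat.rec ⊥ (fun n B => g n B) n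
  have hb0 : REL_good A T l (b 0) := by
    refine ⟨bot_le, Submodule.fg_bot, ?_, ?_⟩
    · show (⊥ : Submodule K U) * ⊥ ≤ _
      rw [Submodule.bot_mul]
      exact bot_le
    · intro c hc
      have : c ∈ (⊥ : Submodule K U) := hc
      rw [Submodule.mem_bot] at this
      rw [this, map_zero]
  have hbg : ∀ n, REL_good A T l (b n) := by
    intro n
    induction n with
    | zero => exact hb0
    | succ n ih => exact hg1 n (b n) ih
  have hbs : ∀ n, b n ≤ b (n + 1) := fun n => hg2 n (b n) (hbg n)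
  have hbm : Monotone b := monotone_nat_of_le_succ hbs
  have hbT : ∀ n, ¬ b (n + 1) ^ (n + 1) ≤ T := fun n => hg3 n (b n) (hbg n)
  let S : Submodule K U := (⨆ n, b n) ⊔ T
  have hSA : S ≤ A := sup_le (iSup_le fun n => (hbg n).1) hT.1
  have hbS : ∀ n, b n ≤ S := fun n => le_trans (le_iSup b n) le_sup_left
  have hTS : T ≤ S := le_sup_right
  have hbb : (⨆ n, b n) * (⨆ n, b n) ≤ S := by
    rw [Submodule.iSup_mul]
    refine iSup_le fun m => ?_
    rw [Submodule.mul_iSup]
    refine iSup_le fun n => ?_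
    refine le_trans (mul_le_mul' (hbm (le_max_left m n)) (hbm (le_max_right m n))) ?_
    refine le_trans (hbg (max m n)).2.2.1 (sup_le (hbS _) hTS)
  have hSS : S * S ≤ S := by
    show ((⨆ n, b n) ⊔ T) * S ≤ S
    rw [Submodule.sup_mul]
    refine sup_le ?_ ?_
    · show (⨆ n, b n) * ((⨆ n, b n) ⊔ T) ≤ S
      rw [Submodule.mul_sup]
      refine sup_le hbb ?_
      have h1 : (⨆ n, b n) ≤ A := iSup_le fun n => (hbg n).1
      exact le_trans (mul_le_mul' h1 le_rfl) (le_trans hT.2.1 hTS)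
    · exact le_trans (mul_le_mul' le_rfl hSA) (le_trans hT.2.2 hTS)
  have hSl : S ≤ LinearMap.ker l := by
    refine sup_le (iSup_le fun n => ?_) hlT
    intro c hc
    exact (hbg n).2.2.2 c hc
  have hSne : S ≠ A := by
    intro h
    apply hlx
    have : x ∈ S := by rw [h]; exact hxA
    exact hSl this
  obtain ⟨n, hn⟩ := hC.prop S hSA hSS hSne
  apply hbT n
  have h1 : b (n + 1) ^ (n + 1) ≤ S ^ (n + 1) := pow_le_pow_left' (hbS (n + 1)) (n + 1)
  rw [pow_succ S, hn, Submodule.bot_mul] at h1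
  exact le_trans h1 bot_le

end Pool.Agent.NN
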